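import Pool.Agent.helper24.CG.Spec
import Pool.Agent.helper24.CG.Spec2
import Pool.Agent.helper24.CG.IND
import Pool.Agent.helper15.CG.GRD
import Pool.Agent.helper49.CG.HLN
import Pool.Agent.helper44.CG.TUP
import Pool.Agent.helper40.CG.HIT
import Pool.Agent.helper55.CG.NUB
import Pool.Agent.helper37.CG.INI
import Pool.Agent.helper75.CG.SUN
import Pool.Agent.helper52.CG.RCH
import Pool.Agent.helper34.CG.BIR
import Pool.Agent.helper4.CG.N0B
import Pool.Agent.helper18.CG.COR
import Pool.Agent.helper50.CG.FIN2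
import Pool.Agent.helper76.CG.ASY
import Pool.Agent.helper21.CG.ALG2
import Pool.Agent.helper40.CG.GAM
import Pool.Agent.helper50.CG.MAI2
import Pool.Agent.helper35.CG.RES2
import Pool.Agent.helper51.CG.MUL
import Pool.Agent.helper39.CG.HVY

/-!
# MP_ba8873_co: first-order upper bound in the biased clique game

There is a constant `C` such that for all `b ≥ 1`, `m ≥ 1` and all sufficiently large `N`
(depending on `b`, `m`)

  `A(K_N; clique; m:b) ≤ (1 + C * m^(-1/9)) * max (2/b) (1/log (1+b)) * m * log N`.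

`A N m b` is the largest `q` for which Maker, who moves first and claims `m` edges per turn against `b`
edges of Breaker, can force to own a complete graph on `q` vertices.
-/

set_option autoImplicit false

namespace Pool.Agent.Results.MP_ba8873_co.FirstOrderUpperBound

open Pool.Agent.helper24.CG

theorem result : ∃ C : ℝ, ∀ b m : ℕ, 1 ≤ b → 1 ≤ m → ∃ N₀ : ℕ, ∀ N ≥ N₀,
    (A N m b : ℝ) ≤ (1 + C * (m : ℝ) ^ (-(1 / 9) : ℝ)) *
      max (2 / (b : ℝ)) (1 / Real.log (1 + b)) * m * Real.log N := by
  have hSUN : SUN_stmt := SUN TUP (HIT HLN) MUL INI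
  have hBIR : BIR_stmt := BIR HVY (NUB HLN) hSUN (RCH HLN) MUL
  have hCOR : COR_stmt := COR (IND GRD HLN) hBIR INI N0B MUL
  exact RES2 (MAI2 hCOR (FIN2 HLN MUL) ASY ALG2 GAM)

end Pool.Agent.Results.MP_ba8873_co.FirstOrderUpperBound
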