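import Pool.Agent.helper42.CQ.Main

/-!
# MP_ba8873_co: the first order of the clique achievement number for (2:1) and for large m, b = 1, 2

`A N m b` is the largest `q` for which Maker, who moves first and claims `m` edges per turn against `b`
edges of Breaker, can force to own a complete graph on `q` vertices.

For `b = 1` and `m = 2` or `m ≥ 10^4`, and for `b = 2` and `m ≥ 10^9`: for every `ε > 0` and all
sufficiently large `N`, `A(K_N; clique; m:b) ≤ (1 + ε) Q(N)`, where `Q(N)` is the expression of the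
problem, `2 log_c (eN / (2 log_c N)) - 1 + 2 log c / log c_0`, `c = (m+b)/m`, `c_0 = m/(m-b)`.
-/

set_option autoImplicit false

namespace Pool.Agent.Results.MP_ba8873_co.SharpFirstOrder

open Pool.Agent.helper24.CG

theorem result : ∀ m b : ℕ, (b = 1 ∧ (m = 2 ∨ 10 ^ 4 ≤ m)) ∨ (b = 2 ∧ 10 ^ 9 ≤ m) →
    ∀ ε : ℝ, 0 < ε → ∃ N₀ : ℕ, ∀ N ≥ N₀,
      (A N m b : ℝ) ≤ (1 + ε) *
        (2 * Real.logb (((m : ℝ) + b) / m)
            (Real.exp 1 * N / (2 * Real.logb (((m : ℝ) + b) / m) N)) - 1 +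
          2 * Real.log (((m : ℝ) + b) / m) / Real.log ((m : ℝ) / ((m : ℝ) - b))) := by
  intro m b h ε hε
  obtain ⟨h1, h2⟩ := Pool.Agent.helper42.CQ.main
  rcases h with ⟨hb, hm | hm⟩ | ⟨hb, hm⟩
  · subst hb hm
    obtain ⟨N₀, hN⟩ := h1 ε hε
    exact ⟨N₀, fun N hN' => (hN N hN').1⟩
  · obtain ⟨N₀, hN⟩ := h2 m b (Or.inl ⟨hb, hm⟩) ε hε
    exact ⟨N₀, fun N hN' => (hN N hN').1⟩
  · obtain ⟨N₀, hN⟩ := h2 m b (Or.inr ⟨hb, hm⟩) ε hε
    exact ⟨N₀, fun N hN' => (hN N hN').1⟩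

end Pool.Agent.Results.MP_ba8873_co.SharpFirstOrder
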